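import Mathlib
import Pool.Agent.H.MP_287fcc_lc.Col

set_option autoImplicit false

namespace Pool.Agent.Results.MP_287fcc_lc.NonPrimePower

theorem result :
    ∃ n : ℕ, 4 < n ∧ ∃ (N : ℕ) (c : Fin N → Fin N → Fin (n - 1)),
      2 ≤ N ∧ ¬ IsPrimePow N ∧
      (∀ x y, c x y = c y x) ∧
      (∀ i : Fin (n - 1), ∃ x y, x ≠ y ∧ c x y = i) ∧
      (∀ x y z, x ≠ y → y ≠ z → x ≠ z → ¬ (c x y = c y z ∧ c y z = c x z)) ∧
      (∀ x y, x ≠ y → ∀ j k : Fin (n - 1), ¬ (j = c x y ∧ k = c x y) →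
        ∃ z, z ≠ x ∧ z ≠ y ∧ c x z = j ∧ c z y = k) :=
  open Pool.Agent.H.MP_287fcc_lc in
  ⟨5, by norm_num, 40, col, by norm_num, not_pp, col_symm, col_used, col_tri, col_wit⟩

end Pool.Agent.Results.MP_287fcc_lc.NonPrimePower
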